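import Pool.Agent.Y831.RC4.CovF
import Pool.Agent.Y831.RC4.SurvT
import Pool.Agent.Y831.RC3.Abund

set_option autoImplicit false
set_option linter.unusedVariables false

/-! # Frequency of long runs of integers with small prime factors, uniform version -/

namespace Pool.Agent.Y831.RC

open Finset Filter Pool.Agent.H256R2.SC

open scoped Classical

/-- the arithmetic core -/
theorem run_cntK {w X δ κ₀ τ x F : ℝ} {a : ℕ → ℕ} (hcov : CovK w X δ κ₀ τ) (hx0 : 0 ≤ x)
    (hxw : x ≤ w) (ha : ∀ p : ℕ, p.Prime → (p : ℝ) ≤ x → a p < p) (hF0 : 0 ≤ F) (hFw : F ≤ w)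
    (hU : (((Finset.Icc 1 ⌊F⌋₊).filter (fun k => ∀ p : ℕ, p.Prime → (p : ℝ) ≤ x →
        ¬ k ≡ a p [MOD p])).card : ℝ) ≤
      κ₀ * (Real.log X * Real.log (Real.log X) * WW w))
    (M : ℝ) (hlen : X ^ (1 - δ) ≤ (X - F) / (primorial ⌊x⌋₊ : ℝ) - 1) (hxδ : x ≤ X ^ δ) :
    ((X - F) / (primorial ⌊x⌋₊ : ℝ) - 1) * Real.exp (-τ) ≤ ((RunSet M X F (X ^ δ)).ncard : ℝ) := by
  set P : ℕ := primorial ⌊x⌋₊ with hPdef
  have hPpos : 0 < P := primorial_pos _
  have hPr : (0 : ℝ) < P := by exact_mod_cast hPpos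
  obtain ⟨b0, hb0, hb0'⟩ := LG.exists_crt ⌊x⌋₊ (fun p => p - a p)
  have hfloor : ∀ p : ℕ, p ≤ ⌊x⌋₊ ↔ (p : ℝ) ≤ x := fun p => Nat.le_floor_iff hx0
  have hdvdP : ∀ p : ℕ, p.Prime → (p : ℝ) ≤ x → p ∣ P := fun p hp hpy =>
    (hp.dvd_primorial_iff).2 ((hfloor p).2 hpy)
  have hndvdP : ∀ p : ℕ, p.Prime → w < p → ¬ p ∣ P := by
    intro p hp hpX h
    have := (hfloor p).1 ((hp.dvd_primorial_iff).1 h)
    linarith
  have hb0b : ∀ p : ℕ, p.Prime → (p : ℝ) ≤ x → p ∣ b0 + a p := by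
    intro p hp hpy
    have h1 := hb0' p hp ((hfloor p).2 hpy)
    have h2 := ha p hp hpy
    have h3 : b0 + a p ≡ (p - a p) + a p [MOD p] := h1.add_right _
    rw [Nat.sub_add_cancel h2.le] at h3
    exact (Nat.modEq_zero_iff_dvd).1 (h3.trans (by simp [Nat.ModEq]))
  -- inverses
  have hinv : ∀ p : ℕ, ∃ i : ℤ, p.Prime → ¬ p ∣ P → (p : ℤ) ∣ P * i - 1 := by
    intro p
    by_cases h : p.Prime ∧ ¬ p ∣ P
    · obtain ⟨i, hi⟩ := LG.inv_exists h.1 h.2
      exact ⟨i, fun _ _ => hi⟩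
    · exact ⟨0, fun h1 h2 => absurd ⟨h1, h2⟩ h⟩
  choose ip hip using hinv
  set U : Finset ℕ := (Finset.Icc 1 ⌊F⌋₊).filter (fun k => ∀ p : ℕ, p.Prime → (p : ℝ) ≤ x →
        ¬ k ≡ a p [MOD p]) with hUdef
  set A' : ℤ := ⌊(M - b0) / P⌋ with hA'
  set B' : ℤ := ⌊(M + X - F - b0) / P⌋ with hB'
  have hBA : (X - F) / (P : ℝ) - 1 ≤ (B' : ℝ) - A' := by
    have e1 := Int.floor_le ((M - b0) / P)
    have e2 := Int.lt_floor_add_one ((M + X - F - b0) / P)
    have e3 : (M + X - F - b0) / P = (M - b0) / P + (X - F) / P := by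
      field_simp
      ring
    linarith
  have hcount := hcov U (by simpa using hU)
    (fun p k => -((b0 : ℤ) + ((k : ℕ) : ℤ)) * ip p) (by
      intro p hp hp1 _ k l hkl hdvd
      have h1 := hip p hp (hndvdP p hp hp1)
      have h2 : (p : ℤ) ∣ ((l : ℕ) : ℤ) - ((k : ℕ) : ℤ) := by
        have h3 : (p : ℤ) ∣ (P : ℤ) * (-((b0 : ℤ) + ((k : ℕ) : ℤ)) * ip p -
            -((b0 : ℤ) + ((l : ℕ) : ℤ)) * ip p) := hdvd.mul_left _
        have h4 : (p : ℤ) ∣ (((l : ℕ) : ℤ) - ((k : ℕ) : ℤ)) * ((P : ℤ) * ip p - 1) := h1.mul_left _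
        have h5 := dvd_sub h3 h4
        have h6 : (P : ℤ) * (-((b0 : ℤ) + ((k : ℕ) : ℤ)) * ip p -
            -((b0 : ℤ) + ((l : ℕ) : ℤ)) * ip p) -
            (((l : ℕ) : ℤ) - ((k : ℕ) : ℤ)) * ((P : ℤ) * ip p - 1) =
            ((l : ℕ) : ℤ) - ((k : ℕ) : ℤ) := by ring
        rwa [h6] at h5
      have hk := mem_Icc.1 (mem_filter.1 k.2).1
      have hl := mem_Icc.1 (mem_filter.1 l.2).1
      have hpL : ⌊F⌋₊ < p := by
        have : (⌊F⌋₊ : ℝ) < p := lt_of_le_of_lt ((Nat.floor_le hF0).trans hFw) hp1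
        exact_mod_cast this
      have h7 : ((l : ℕ) : ℤ) - ((k : ℕ) : ℤ) = 0 := by
        apply Int.eq_zero_of_abs_lt_dvd h2
        rw [abs_lt]
        constructor <;> omega
      apply hkl
      apply Subtype.ext
      omega)
    A' B' (hlen.trans hBA)
  set S : Finset ℤ := (Ioc A' B').filter (fun x : ℤ => ∀ k : U,
      ∃ p : ℕ, p.Prime ∧ w < p ∧ (p : ℝ) ≤ X ^ δ ∧
        (p : ℤ) ∣ x - -((b0 : ℤ) + ((k : ℕ) : ℤ)) * ip p) with hS
  have hsub : ((S.image (fun m : ℤ => (b0 : ℤ) + P * m) : Finset ℤ) : Set ℤ) ⊆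
      RunSet M X F (X ^ δ) := by
    intro n hn
    rw [Finset.mem_coe, Finset.mem_image] at hn
    obtain ⟨m, hm, rfl⟩ := hn
    rw [hS, Finset.mem_filter, Finset.mem_Ioc] at hm
    obtain ⟨⟨hmA, hmB⟩, hm⟩ := hm
    have hm1 : (M - b0) / P < m := by
      have := Int.lt_floor_add_one ((M - b0) / P)
      have h2 : ((⌊(M - b0) / P⌋ : ℤ) : ℝ) + 1 ≤ m := by exact_mod_cast hmA
      linarith
    have hm2 : (m : ℝ) ≤ (M + X - F - b0) / P := by
      have := Int.floor_le ((M + X - F - b0) / P)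
      have h2 : (m : ℝ) ≤ ((⌊(M + X - F - b0) / P⌋ : ℤ) : ℝ) := by exact_mod_cast hmB
      linarith
    rw [div_lt_iff₀ hPr] at hm1
    rw [le_div_iff₀ hPr] at hm2
    refine ⟨?_, ?_, ?_⟩
    · push_cast
      linarith
    · push_cast
      linarith
    · intro k hk1 hkL
      have hkN : k ≤ ⌊F⌋₊ := Nat.le_floor hkL
      by_cases hkU : k ∈ U
      · obtain ⟨p, hp, hp1, hp2, hp3⟩ := hm ⟨k, hkU⟩
        refine ⟨p, hp, hp2, ?_⟩
        have h1 := hip p hp (hndvdP p hp hp1)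
        have h3 := hp3.mul_left (P : ℤ)
        have h4 := h1.mul_left ((b0 : ℤ) + (k : ℤ))
        have h5 := dvd_sub h3 h4
        have h6 : (P : ℤ) * ((m : ℤ) - -((b0 : ℤ) + (k : ℤ)) * ip p) -
            ((b0 : ℤ) + (k : ℤ)) * ((P : ℤ) * ip p - 1) = (b0 : ℤ) + P * m + k := by
          ring
        rwa [← h6]
      · have hkU' : ¬ ∀ p : ℕ, p.Prime → (p : ℝ) ≤ x → ¬ k ≡ a p [MOD p] := fun h =>
          hkU (mem_filter.2 ⟨mem_Icc.2 ⟨hk1, hkN⟩, h⟩)
        push Not at hkU'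
        obtain ⟨p, hp, hpy, hkp⟩ := hkU'
        refine ⟨p, hp, hpy.trans hxδ, ?_⟩
        have h1 : b0 + k ≡ b0 + a p [MOD p] := hkp.add_left _
        have h2 : p ∣ b0 + k := (Nat.modEq_zero_iff_dvd).1
          (h1.trans ((Nat.modEq_zero_iff_dvd).2 (hb0b p hp hpy)))
        have h3 : (p : ℤ) ∣ (P : ℤ) * m := Dvd.dvd.mul_right (by exact_mod_cast hdvdP p hp hpy) _
        have h4 : (p : ℤ) ∣ (b0 : ℤ) + k := by exact_mod_cast h2
        have h5 : (b0 : ℤ) + P * m + k = ((b0 : ℤ) + k) + P * m := by ring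
        rw [h5]
        exact dvd_add h4 h3
  have hinj : (S.image (fun m : ℤ => (b0 : ℤ) + P * m)).card = S.card := by
    apply Finset.card_image_of_injective
    intro m m' h
    have hP0 : (P : ℤ) ≠ 0 := by exact_mod_cast hPpos.ne'
    have h2 : (P : ℤ) * m = P * m' := by
      have : (b0 : ℤ) + P * m = b0 + P * m' := h
      linarith
    exact mul_left_cancel₀ hP0 h2
  have hcard : (S.card : ℝ) ≤ ((RunSet M X F (X ^ δ)).ncard : ℝ) := by
    have h1 := Set.ncard_le_ncard hsub (RunSet_finite M X F (X ^ δ) hF0)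
    rw [Set.ncard_coe_finset, hinj] at h1
    exact_mod_cast h1
  refine le_trans ?_ (hcount.trans hcard)
  exact mul_le_mul_of_nonneg_right hBA (Real.exp_pos _).le



theorem ev_abT (t η b : ℝ) (ht : 0 < t) (hη : 0 < η) :
    ∃ L₀ : ℝ, ∀ L : ℝ, L₀ ≤ L →
    5 ≤ L ∧ 1 ≤ Real.log L ∧ 960 ≤ 400 * t * Real.log L ∧
    400 * (Real.log L) ^ 2 ≤ L ^ (η / 2) ∧
    Real.log 400 + 2 * Real.log (Real.log L) ≤ t * (η * Real.log L) ∧
    L ^ b ≤ 1 / 2 * Real.exp L ∧ 4 ≤ L ^ η := by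
  have t1 := Real.tendsto_log_atTop
  have h0 : ∀ᶠ L : ℝ in atTop, 5 ≤ L := eventually_ge_atTop _
  have h1 : ∀ᶠ L : ℝ in atTop, 1 ≤ Real.log L := t1.eventually_ge_atTop _
  have h2 : ∀ᶠ L : ℝ in atTop, 960 ≤ 400 * t * Real.log L := by
    filter_upwards [t1.eventually_ge_atTop (960 / (400 * t))] with L hL
    rw [div_le_iff₀ (by positivity)] at hL
    linarith
  have h3 : ∀ᶠ L : ℝ in atTop, 400 * (Real.log L) ^ 2 ≤ L ^ (η / 2) := by
    have e1 : (fun L : ℝ => (Real.log L) ^ (2:ℝ)) =o[atTop] (fun L : ℝ => L ^ (η / 2)) :=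
      isLittleO_log_rpow_rpow_atTop 2 (by positivity)
    have e2 := e1.def (show (0:ℝ) < 1 / 400 by positivity)
    filter_upwards [e2, eventually_ge_atTop (1:ℝ)] with L hL hL1
    have hl0 := Real.log_nonneg hL1
    rw [Real.norm_eq_abs, Real.norm_eq_abs, abs_of_nonneg (Real.rpow_nonneg hl0 _),
      abs_of_nonneg (Real.rpow_nonneg (by linarith) _), Real.rpow_two] at hL
    linarith
  have h4 : ∀ᶠ L : ℝ in atTop,
      Real.log 400 + 2 * Real.log (Real.log L) ≤ t * (η * Real.log L) := by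
    have e1 : (fun x : ℝ => Real.log x) =o[atTop] (fun x : ℝ => x) := Real.isLittleO_log_id_atTop
    have e2 := e1.def (show (0:ℝ) < t * η / 4 by positivity)
    have e3 : ∀ᶠ x : ℝ in atTop, Real.log 400 + 2 * Real.log x ≤ t * (η * x) := by
      filter_upwards [e2, eventually_ge_atTop (1:ℝ),
        eventually_ge_atTop (2 / (t * η) * Real.log 400)] with x hx hx1 hx2
      rw [Real.norm_eq_abs, Real.norm_eq_abs, abs_of_nonneg (Real.log_nonneg hx1),
        abs_of_nonneg (by linarith)] at hx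
      have e4 : Real.log 400 ≤ t * η / 2 * x := by
        calc Real.log 400 = t * η / 2 * (2 / (t * η) * Real.log 400) := by
              field_simp
          _ ≤ t * η / 2 * x := mul_le_mul_of_nonneg_left hx2 (by positivity)
      have e5 : t * (η * x) = t * η / 2 * x + 2 * (t * η / 4 * x) := by ring
      linarith
    exact t1.eventually e3
  have h5 : ∀ᶠ L : ℝ in atTop, L ^ b ≤ 1 / 2 * Real.exp L := by
    have e1 := tendsto_rpow_mul_exp_neg_mul_atTop_nhds_zero b 1 one_pos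
    have e2 := e1.eventually (gt_mem_nhds (show (0:ℝ) < 1 / 2 by norm_num))
    filter_upwards [e2] with L hL
    have h5 : L ^ b * Real.exp (-1 * L) * Real.exp L ≤ 1 / 2 * Real.exp L :=
      mul_le_mul_of_nonneg_right hL.le (Real.exp_pos _).le
    rwa [mul_assoc, ← Real.exp_add, neg_one_mul, neg_add_cancel, Real.exp_zero, mul_one] at h5
  have h6 : ∀ᶠ L : ℝ in atTop, 4 ≤ L ^ η := (tendsto_rpow_atTop hη).eventually_ge_atTop _
  exact Filter.eventually_atTop.1 (h0.and (h1.and (h2.and (h3.and (h4.and (h5.and h6))))))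

/-- the length is at most half the record function -/
theorem lenT_le (η : ℝ) (hη : 0 < η) : ∃ X₀ : ℝ, ∀ X : ℝ, X₀ ≤ X → ∀ T : ℝ,
    (Real.log X) ^ η ≤ T → T ≤ Real.log X → 0 ≤ lenT X T ∧ lenT X T ≤ ff X := by
  obtain ⟨X₀, h⟩ := ev4 4
  refine ⟨X₀, fun X hX T hT1 hT2 => ?_⟩
  obtain ⟨m0, m4, m5, m3, m2, m1⟩ := h X hX
  unfold lenT ff
  set L := Real.log X with hL
  set l := Real.log L with hl
  set l3 := Real.log l with hl3
  set l4 := Real.log l3 with hl4
  obtain ⟨a4, a3, a2, a1⟩ := s_pos (by norm_num : (1:ℝ) ≤ 4) m4 m3 m2 m1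
  have p4 : 0 < l4 := by linarith
  have p3 : 0 < l3 := by linarith
  have p2 : 0 < l := by linarith
  have p1 : 0 < L := by linarith
  have hT0 : 0 < T := lt_of_lt_of_le (Real.rpow_pos_of_pos p1 _) hT1
  set θ := Real.log T / l with hθ
  have hθη : η ≤ θ := by
    rw [hθ, le_div_iff₀ p2, hl, ← Real.log_rpow p1]
    exact Real.log_le_log (Real.rpow_pos_of_pos p1 _) hT1
  have hθ0 : 0 < θ := by linarith
  have hθ1 : θ ≤ 1 := by
    rw [hθ, div_le_one p2, hl]
    exact Real.log_le_log hT0 hT2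
  have hlogθ : Real.log θ ≤ 0 := Real.log_nonpos hθ0.le hθ1
  have h2l : 0 < 2 * l3 / l := by positivity
  have hΛ : 2 * l3 / l ≤ 2 * l3 / l - Real.log θ := by linarith
  have hΛ0 : 0 < 2 * l3 / l - Real.log θ := by linarith
  constructor
  · positivity
  · calc θ / (2 * l3 / l - Real.log θ) * (L * l * l4 / l3) ≤ 1 / (2 * l3 / l) * (L * l * l4 / l3) := by
          apply mul_le_mul_of_nonneg_right _ (by positivity)
          exact div_le_div₀ zero_le_one hθ1 h2l hΛ
      _ = 1 / 2 * (L * l ^ 2 * l4 / l3 ^ 2) := by field_simp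
      _ ≤ L * l ^ 2 * l4 / l3 ^ 2 := by
          have : 0 ≤ L * l ^ 2 * l4 / l3 ^ 2 := by positivity
          linarith

/-- in every interval of length `X` there are at least `X exp (- T)` starting
points of runs of `c lenT X T` integers with a prime factor at most `X^δ`, if `c < 1 / 2`,
uniformly for `(log X)^η ≤ T ≤ log X` -/
theorem abundT (c δ η : ℝ) (hc : 0 < c) (hc2 : c < 1 / 2) (hδ : 0 < δ) (hη : 0 < η)
    (hη1 : η ≤ 1) :
    ∃ X₀ : ℝ, ∀ X : ℝ, X₀ ≤ X → ∀ T : ℝ, (Real.log X) ^ η ≤ T → T ≤ Real.log X → ∀ M : ℝ,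
      X * Real.exp (-T) ≤ ((RunSet M X (c * lenT X T) (X ^ δ)).ncard : ℝ) := by
  obtain ⟨t, ht, ht4, htδ, htc⟩ : ∃ t : ℝ, 0 < t ∧ t ≤ 1 / 4 ∧ t / 8 ≤ δ ∧
      (1 + t) * c < (1 / 2 - t) * (1 - t) := by
    refine ⟨min (1 / 4) (min δ ((1 / 2 - c) / 4)), ?_, min_le_left _ _, ?_, ?_⟩
    · exact lt_min (by norm_num) (lt_min hδ (by linarith))
    · have : min (1 / 4) (min δ ((1 / 2 - c) / 4)) ≤ δ := (min_le_right _ _).trans (min_le_left _ _)
      linarith
    · set t := min (1 / 4) (min δ ((1 / 2 - c) / 4)) with ht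
      have h1 : t ≤ (1 / 2 - c) / 4 := (min_le_right _ _).trans (min_le_right _ _)
      have h3 : 0 < t := lt_min (by norm_num) (lt_min hδ (by linarith))
      nlinarith
  have h12 : 0 < 1 / 2 - t := by linarith
  obtain ⟨X₁, hX₁⟩ := covv (1 + t) (by linarith) (by linarith) t (η / 2) ht ht4 (by positivity)
  obtain ⟨X₂, hX₂⟩ := survT (1 + t) c ((1 / 2 - t) * (1 - t)) (t / 64) η (by linarith)
    (by linarith) hc htc (by positivity) (by linarith) hη hη1
  obtain ⟨X₃, hX₃⟩ := ev_run (1 + t) c t (by linarith) hc ht (by linarith)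
  obtain ⟨X₄, hX₄⟩ := lenT_le η hη
  obtain ⟨L₀, hL₀⟩ := ev_abT t η (1 + t) ht hη
  refine ⟨max (max X₁ X₂) (max X₃ (max X₄ (Real.exp L₀))), fun X hX T hT1 hT2 M => ?_⟩
  obtain ⟨a, ha1, ha2⟩ := hX₂ X ((le_max_right _ _).trans ((le_max_left _ _).trans hX)) T hT1 hT2
  obtain ⟨g0, g1, g2, g3, g4, g5, g6⟩ := hX₃ X ((le_max_left _ _).trans ((le_max_right _ _).trans hX))
  obtain ⟨q1, q2⟩ := hX₄ X ((le_max_left _ _).trans ((le_max_right _ _).trans
    ((le_max_right _ _).trans hX))) T hT1 hT2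
  have hXL : Real.exp L₀ ≤ X := (le_max_right _ _).trans ((le_max_right _ _).trans
    ((le_max_right _ _).trans hX))
  have hLL : L₀ ≤ Real.log X := by
    rw [← Real.log_exp L₀]
    exact Real.log_le_log (Real.exp_pos _) hXL
  obtain ⟨k0, k1, k2, k3, k4, k5, k6⟩ := hL₀ (Real.log X) hLL
  have h1 := hX₁ X ((le_max_left _ _).trans ((le_max_left _ _).trans hX))
    (400 * (Real.log X * (Real.log (Real.log X)) ^ 2 / T))
  have hX0 : 0 < X := by linarith
  have hXe : X = Real.exp (Real.log X) := (Real.exp_log hX0).symm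
  set L := Real.log X with hL
  set l := Real.log L with hl
  have hl0 : 0 < l := by linarith
  have hL0 : 0 < L := by linarith
  have hT4 : 4 ≤ T := k6.trans hT1
  have hT0 : 0 < T := by linarith
  have hlogT : 0 < Real.log T := Real.log_pos (by linarith)
  have hθη : η * l ≤ Real.log T := by
    rw [hl, ← Real.log_rpow hL0]
    exact Real.log_le_log (Real.rpow_pos_of_pos hL0 _) hT1
  obtain ⟨v, hv⟩ : ∃ v, v = 400 * (L * l ^ 2 / T) := ⟨_, rfl⟩
  rw [← hv] at h1
  have hv0 : 0 < v := by rw [hv]; positivity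
  have hv1 : 960 * l ≤ t * v := by
    have e1 : 400 * l ^ 2 ≤ v := by
      rw [hv]
      apply mul_le_mul_of_nonneg_left _ (by norm_num)
      rw [le_div_iff₀ hT0]
      calc l ^ 2 * T ≤ l ^ 2 * L := mul_le_mul_of_nonneg_left hT2 (by positivity)
        _ = L * l ^ 2 := by ring
    have e2 : t * (400 * l ^ 2) ≤ t * v := mul_le_mul_of_nonneg_left e1 ht.le
    have e3 : 960 * l ≤ 400 * t * l * l := mul_le_mul_of_nonneg_right k2 hl0.le
    nlinarith
  have hv2 : v ≤ L ^ (1 - η / 2) := by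
    rw [hv, ← mul_div_assoc, div_le_iff₀ hT0]
    calc 400 * (L * l ^ 2) = L * (400 * l ^ 2) := by ring
      _ ≤ L * L ^ (η / 2) := mul_le_mul_of_nonneg_left k3 hL0.le
      _ = L ^ (1 - η / 2) * L ^ η := by
          rw [← Real.rpow_add hL0]
          nth_rewrite 1 [← Real.rpow_one L]
          rw [← Real.rpow_add hL0]
          congr 1
          ring
      _ ≤ L ^ (1 - η / 2) * T := mul_le_mul_of_nonneg_left hT1 (Real.rpow_nonneg hL0.le _)
  have hcov := h1 hv1 hv2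
  have hτ : 48 * (L / v * l ^ 2) = 48 / 400 * T := by
    rw [hv]
    field_simp
  rw [hτ] at hcov
  have hlogv : Real.log v = Real.log 400 + (l + 2 * Real.log l) - Real.log T := by
    rw [hv, Real.log_mul (by norm_num) (by positivity), Real.log_div (by positivity) hT0.ne',
      Real.log_mul hL0.ne' (by positivity), Real.log_pow, ← hl]
    push_cast
    ring
  have hφ : (1 / 2 - t) * (1 - t) * (Real.log T / l) ≤ (1 / 2 - t) * (1 - Real.log v / l) := by
    rw [mul_assoc]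
    apply mul_le_mul_of_nonneg_left _ h12.le
    have e1 : 1 - Real.log v / l = (l - Real.log v) / l := by field_simp
    rw [e1, ← mul_div_assoc]
    apply div_le_div_of_nonneg_right _ hl0.le
    rw [hlogv]
    have e2 : t * (η * l) ≤ t * Real.log T := mul_le_mul_of_nonneg_left hθη ht.le
    linarith
  set x := t / 64 * T with hx
  have hx0 : 0 ≤ x := by rw [hx]; positivity
  have hxT : x ≤ T / 256 := by
    rw [hx]
    have : t / 64 * T ≤ 1 / 256 * T := mul_le_mul_of_nonneg_right (by linarith) hT0.le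
    linarith
  have hxL : x ≤ L := by linarith
  have hF0 : 0 ≤ c * lenT X T := by positivity
  have hFf : c * lenT X T ≤ c * ff X := mul_le_mul_of_nonneg_left q2 hc.le
  have hFX' : 0 ≤ X - c * ff X := by
    by_contra h
    push Not at h
    have h2 : (X - c * ff X) / Real.exp (2 * (t / 64 * L)) < 0 :=
      div_neg_of_neg_of_pos h (Real.exp_pos _)
    have h3 : 0 ≤ X ^ (1 - t / 8) := Real.rpow_nonneg (by linarith) _
    linarith
  have hFX : 0 ≤ X - c * lenT X T := by linarith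
  have hprim := primorial_le_exp x hx0
  have hPpos : (0:ℝ) < (primorial ⌊x⌋₊ : ℝ) := by
    exact_mod_cast primorial_pos _
  have hlen1 : (X - c * lenT X T) / Real.exp (2 * x) ≤ (X - c * lenT X T) / (primorial ⌊x⌋₊ : ℝ) :=
    div_le_div_of_nonneg_left hFX hPpos hprim
  have hlen2 : (X - c * ff X) / Real.exp (2 * (t / 64 * L)) ≤
      (X - c * lenT X T) / Real.exp (2 * x) := by
    apply div_le_div₀ hFX (by linarith) (Real.exp_pos _)
    apply Real.exp_le_exp.2
    rw [hx]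
    have : t / 64 * T ≤ t / 64 * L := mul_le_mul_of_nonneg_left hT2 (by positivity)
    linarith
  have hxδ : x ≤ X ^ (t / 8) := by
    refine le_trans ?_ g5
    rw [hx]
    exact mul_le_mul_of_nonneg_left hT2 (by positivity)
  have hW0 : 0 ≤ L * l * WW (L ^ (1 + t)) := by
    have := WW_pos (L ^ (1 + t))
    positivity
  have hmain := run_cntK hcov hx0 (hxL.trans g4) ha1 hF0 (hFf.trans g2)
    ((ha2 ⌊c * lenT X T⌋₊ (Nat.floor_le hF0)).trans (mul_le_mul_of_nonneg_right hφ hW0)) M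
    (by linarith) hxδ
  have hfin : X * Real.exp (-T) ≤
      ((X - c * lenT X T) / (primorial ⌊x⌋₊ : ℝ) - 1) * Real.exp (-(48 / 400 * T)) := by
    have e1 : X / 2 ≤ X - c * lenT X T := by
      rw [← hXe] at k5
      linarith
    have e2 : X / 2 * Real.exp (-(2 * x)) ≤ (X - c * lenT X T) / (primorial ⌊x⌋₊ : ℝ) := by
      refine le_trans ?_ hlen1
      rw [Real.exp_neg, ← div_eq_mul_inv]
      exact div_le_div_of_nonneg_right e1 (Real.exp_pos _).le
    have e3 : (8:ℝ) ≤ X * Real.exp (-(2 * x)) := by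
      rw [hXe, ← Real.exp_add]
      have e4 : L / 2 ≤ L + -(2 * x) := by linarith
      have e5 : (8:ℝ) ≤ Real.exp (L / 2) := by
        have h6 : Real.exp (5 / 2) ≤ Real.exp (L / 2) := Real.exp_le_exp.2 (by linarith)
        have h7 : (8:ℝ) ≤ Real.exp (5 / 2) := by
          have h8 : Real.exp (5 / 2) = Real.exp 1 * Real.exp 1 * Real.exp (1 / 2) := by
            rw [← Real.exp_add, ← Real.exp_add]
            norm_num
          have h9 := Real.exp_one_gt_d9
          have h10 := Real.add_one_le_exp (1 / 2 : ℝ)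
          rw [h8]
          have h11 : (2.7:ℝ) * 2.7 ≤ Real.exp 1 * Real.exp 1 := by
            apply mul_le_mul <;> linarith
          nlinarith
        linarith
      exact e5.trans (Real.exp_le_exp.2 e4)
    have e6 : X * Real.exp (-(2 * x)) * Real.exp (-2) ≤
        (X - c * lenT X T) / (primorial ⌊x⌋₊ : ℝ) - 1 := by
      have e7 : Real.exp (-2) ≤ 3 / 8 := by
        rw [Real.exp_neg, inv_le_comm₀ (Real.exp_pos _) (by norm_num)]
        have := Real.add_one_le_exp (2:ℝ)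
        linarith
      have e8 : 0 ≤ X * Real.exp (-(2 * x)) := by positivity
      nlinarith
    calc X * Real.exp (-T) ≤ X * Real.exp (-(2 * x) + -2 + -(48 / 400 * T)) := by
          apply mul_le_mul_of_nonneg_left _ hX0.le
          apply Real.exp_le_exp.2
          linarith
      _ = X * Real.exp (-(2 * x)) * Real.exp (-2) * Real.exp (-(48 / 400 * T)) := by
          rw [Real.exp_add, Real.exp_add]
          ring
      _ ≤ _ := mul_le_mul_of_nonneg_right e6 (Real.exp_pos _).le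
  have hmono : ((RunSet M X (c * lenT X T) (X ^ (t / 8))).ncard : ℝ) ≤
      ((RunSet M X (c * lenT X T) (X ^ δ)).ncard : ℝ) := by
    exact_mod_cast RunSet_mono M X (c * lenT X T) _ _ hF0 (Real.rpow_le_rpow_of_exponent_le g0 htδ)
  exact (hfin.trans hmain).trans hmono

end Pool.Agent.Y831.RC
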