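import Pool.Agent.Y831.RC3.CovD

set_option autoImplicit false
set_option linter.unusedSectionVars false
set_option linter.unusedVariables false

/-! # The covering theorem with a count, uniform in the cost parameter (numerical lemmas) -/

namespace Pool.Agent.Y831.RC

open Finset Filter Pool.Agent.H256R2.SC

open scoped Classical

theorem ev_covv (b ε η C c CR : ℝ) (hb : 1 < b) (hε : 0 < ε) (hη : 0 < η)
    (hC : 0 < C) (hc : 0 < c) :
    ∃ L₀ : ℝ, ∀ L : ℝ, L₀ ≤ L →
    L ^ (1 - η) * Real.log L ≤ ε ^ 2 / 100 * L ∧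
    -Real.log (ε ^ 2 / 100) + Real.log (Real.log L) ≤ ε / 16 * (η * Real.log L) ∧
    C / 2 ≤ L ^ (b - 1) ∧ 4 * CR ≤ Real.log L ∧
    16 < Real.exp (7 * ε * L / 64) ∧ 1616 * C ≤ L ∧
    32 * L ^ (1 - η) ≤ L ∧ 384 * Real.log L ≤ ε * L ∧
    1 + 27 * C * L * Real.log L ≤ L ^ 2 ∧ 32 / (ε * (η * c)) ≤ Real.log L := by
  have t1 := Real.tendsto_log_atTop
  have h1 : ∀ᶠ L : ℝ in atTop, L ^ (1 - η) * Real.log L ≤ ε ^ 2 / 100 * L := by
    have e1 := isLittleO_log_rpow_atTop hη
    have e2 := e1.def (show (0:ℝ) < ε ^ 2 / 100 by positivity)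
    filter_upwards [e2, eventually_ge_atTop (1:ℝ)] with L hL hL2
    have hL0 : 0 < L := by linarith
    rw [Real.norm_eq_abs, Real.norm_eq_abs, abs_of_nonneg (Real.log_nonneg hL2),
      abs_of_nonneg (Real.rpow_nonneg hL0.le _)] at hL
    calc L ^ (1 - η) * Real.log L ≤ L ^ (1 - η) * (ε ^ 2 / 100 * L ^ η) :=
          mul_le_mul_of_nonneg_left hL (Real.rpow_nonneg hL0.le _)
      _ = ε ^ 2 / 100 * (L ^ (1 - η) * L ^ η) := by ring
      _ = ε ^ 2 / 100 * L := by
          rw [← Real.rpow_add hL0]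
          have : 1 - η + η = 1 := by ring
          rw [this, Real.rpow_one]
  have h2 : ∀ᶠ L : ℝ in atTop,
      -Real.log (ε ^ 2 / 100) + Real.log (Real.log L) ≤ ε / 16 * (η * Real.log L) := by
    have e1 : (fun x : ℝ => Real.log x) =o[atTop] (fun x : ℝ => x) := Real.isLittleO_log_id_atTop
    have hεη : 0 < ε * η := by positivity
    have e2 := e1.def (show (0:ℝ) < ε * η / 32 by positivity)
    have e3 : ∀ᶠ x : ℝ in atTop, -Real.log (ε ^ 2 / 100) + Real.log x ≤
        ε / 16 * (η * x) := by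
      filter_upwards [e2, eventually_ge_atTop (1:ℝ),
        eventually_ge_atTop (32 / (ε * η) * |-Real.log (ε ^ 2 / 100)|)]
        with x hx hx1 hx2
      rw [Real.norm_eq_abs, Real.norm_eq_abs, abs_of_nonneg (Real.log_nonneg hx1),
        abs_of_nonneg (by linarith)] at hx
      have e4 : |-Real.log (ε ^ 2 / 100)| ≤ ε * η / 32 * x := by
        calc |-Real.log (ε ^ 2 / 100)| =
              ε * η / 32 * (32 / (ε * η) * |-Real.log (ε ^ 2 / 100)|) := by
              field_simp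
          _ ≤ ε * η / 32 * x := mul_le_mul_of_nonneg_left hx2 (by positivity)
      have e5 := le_abs_self (-Real.log (ε ^ 2 / 100))
      have e6 : ε / 16 * (η * x) = ε * η / 32 * x + ε * η / 32 * x := by ring
      linarith
    exact t1.eventually e3
  have h3 : ∀ᶠ L : ℝ in atTop, C / 2 ≤ L ^ (b - 1) :=
    (tendsto_rpow_atTop (show 0 < b - 1 by linarith)).eventually_ge_atTop _
  have h4 : ∀ᶠ L : ℝ in atTop, 4 * CR ≤ Real.log L := t1.eventually_ge_atTop _
  have h6 : ∀ᶠ L : ℝ in atTop, 16 < Real.exp (7 * ε * L / 64) := by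
    have e5 : Tendsto (fun x : ℝ => 7 * ε / 64 * x) atTop atTop :=
      Tendsto.const_mul_atTop (by positivity) tendsto_id
    have e6 := Real.tendsto_exp_atTop.comp e5
    filter_upwards [e6.eventually_gt_atTop 16] with x hx
    have : 7 * ε / 64 * x = 7 * ε * x / 64 := by ring
    simp only [Function.comp] at hx
    rwa [this] at hx
  have h7 : ∀ᶠ L : ℝ in atTop, 1616 * C ≤ L := eventually_ge_atTop _
  have h8 : ∀ᶠ L : ℝ in atTop, 32 * L ^ (1 - η) ≤ L := by
    filter_upwards [(tendsto_rpow_atTop hη).eventually_ge_atTop 32, eventually_ge_atTop (1:ℝ)]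
      with L hL hL1
    have hL0 : 0 < L := by linarith
    calc 32 * L ^ (1 - η) ≤ L ^ η * L ^ (1 - η) :=
          mul_le_mul_of_nonneg_right hL (Real.rpow_nonneg hL0.le _)
      _ = L := by
          rw [← Real.rpow_add hL0]
          have : η + (1 - η) = 1 := by ring
          rw [this, Real.rpow_one]
  have h10 : ∀ᶠ L : ℝ in atTop, 384 * Real.log L ≤ ε * L := by
    have e1 : (fun x : ℝ => Real.log x) =o[atTop] (fun x : ℝ => x) := Real.isLittleO_log_id_atTop
    have e2 := e1.def (show (0:ℝ) < ε / 384 by positivity)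
    filter_upwards [e2, eventually_ge_atTop (1:ℝ)] with x hx hx1
    rw [Real.norm_eq_abs, Real.norm_eq_abs, abs_of_nonneg (Real.log_nonneg hx1),
      abs_of_nonneg (by linarith)] at hx
    linarith
  have h11 : ∀ᶠ L : ℝ in atTop, 1 + 27 * C * L * Real.log L ≤ L ^ 2 := by
    have e1 : (fun x : ℝ => Real.log x) =o[atTop] (fun x : ℝ => x) := Real.isLittleO_log_id_atTop
    have e2 := e1.def (show (0:ℝ) < 1 / (54 * C) by positivity)
    filter_upwards [e2, eventually_ge_atTop (2:ℝ)] with x hx hx1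
    rw [Real.norm_eq_abs, Real.norm_eq_abs, abs_of_nonneg (Real.log_nonneg (by linarith)),
      abs_of_nonneg (by linarith)] at hx
    have h5 : 27 * C * x * Real.log x ≤ 27 * C * x * (1 / (54 * C) * x) :=
      mul_le_mul_of_nonneg_left hx (by positivity)
    have h6 : 27 * C * x * (1 / (54 * C) * x) = x ^ 2 / 2 := by field_simp; norm_num
    nlinarith
  have h12 : ∀ᶠ L : ℝ in atTop, 32 / (ε * (η * c)) ≤ Real.log L := t1.eventually_ge_atTop _
  exact Filter.eventually_atTop.1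
    (h1.and (h2.and (h3.and (h4.and (h6.and (h7.and (h8.and (h10.and (h11.and h12)))))))))

section
variable {ε C c L : ℝ}

theorem v_A {W V t φ η : ℝ} (hε : 0 < ε) (hε4 : ε ≤ 1 / 4) (hW : 0 < W) (hL : 32 ≤ L) (hc : 0 < c)
    (hV : 0 < V) (hη : 0 < η) (hφ : η ≤ φ)
    (f1 : 10 ≤ Real.log L) (hWc : c / 2 ≤ W * Real.log L) (f4 : 32 / (ε * (η * c)) ≤ Real.log L)
    (hlog : Real.log V + Real.log (Real.log L) = (1 - φ) * Real.log L)
    (f6 : -Real.log (ε ^ 2 / 100) + Real.log (Real.log L) ≤ ε / 16 * (η * Real.log L))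
    (f7 : 2 / L ^ 2 ≤ ε / 16) (ht : t ≤ ε * (η * c) / 32) :
    (1 - ε / 4) * ((φ * W) * Real.log L) ≤ W / (1 + 2 / L ^ 2) *
      Real.log ((ε ^ 2 / 100 * L / Real.log L) / (V * Real.log L)) - V / (V * Real.log L) - t := by
  set l := Real.log L with hl
  have hl0 : 0 < l := by linarith
  have hL0 : 0 < L := by linarith
  have hθ0 : 0 < ε ^ 2 / 100 := by positivity
  have hφ0 : 0 < φ := by linarith
  have hy2 : 0 < 1 + 2 / L ^ 2 := by positivity
  have e1 : (1 - ε / 16) * (φ * l) ≤ Real.log ((ε ^ 2 / 100 * L / l) / (V * l)) := by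
    rw [Real.log_div (by positivity) (by positivity), Real.log_div (by positivity) hl0.ne',
      Real.log_mul hθ0.ne' hL0.ne', Real.log_mul hV.ne' (by positivity), ← hl]
    have e0 : ε / 16 * (η * l) ≤ ε / 16 * (φ * l) := by
      apply mul_le_mul_of_nonneg_left _ (by positivity)
      exact mul_le_mul_of_nonneg_right hφ hl0.le
    linarith
  have e2 : (1 - ε / 16) * W ≤ W / (1 + 2 / L ^ 2) := by
    rw [le_div_iff₀ hy2]
    have h3 : (1 - ε / 16) * (1 + 2 / L ^ 2) ≤ 1 := by nlinarith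
    calc (1 - ε / 16) * W * (1 + 2 / L ^ 2) = W * ((1 - ε / 16) * (1 + 2 / L ^ 2)) := by ring
      _ ≤ W * 1 := mul_le_mul_of_nonneg_left h3 hW.le
      _ = W := mul_one W
  have hWφ : η * c / 2 ≤ (φ * W) * l := by
    calc η * c / 2 = η * (c / 2) := by ring
      _ ≤ φ * (W * l) := mul_le_mul hφ hWc (by positivity) hφ0.le
      _ = (φ * W) * l := by ring
  have e3 : V / (V * l) ≤ ε / 16 * ((φ * W) * l) := by
    rw [div_le_iff₀ (by positivity)] at f4
    have e0 : V / (V * l) = 1 / l := by field_simp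
    rw [e0, div_le_iff₀ hl0]
    have h1 : ε / 16 * (η * c / 2) * l ≤ ε / 16 * ((φ * W) * l) * l := by gcongr
    have h2 : 1 ≤ ε / 16 * (η * c / 2) * l := by
      have : ε / 16 * (η * c / 2) * l = l * (ε * (η * c)) / 32 := by ring
      rw [this, le_div_iff₀ (by norm_num)]
      linarith
    linarith
  have e4 : (1 - ε / 16) * W * ((1 - ε / 16) * (φ * l)) ≤
      W / (1 + 2 / L ^ 2) * Real.log ((ε ^ 2 / 100 * L / l) / (V * l)) := by
    apply mul_le_mul e2 e1
    · apply mul_nonneg _ (by positivity)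
      linarith
    · positivity
  have e5 : 0 ≤ (φ * W) * l := by positivity
  have e7 : t ≤ ε / 16 * ((φ * W) * l) := by
    refine ht.trans ?_
    have : ε * (η * c) / 32 = ε / 16 * (η * c / 2) := by ring
    rw [this]
    exact mul_le_mul_of_nonneg_left hWφ (by positivity)
  have e6 : (1 - ε / 4) * ((φ * W) * l) ≤ (1 - ε / 16) * W * ((1 - ε / 16) * (φ * l)) -
      ε / 16 * ((φ * W) * l) - ε / 16 * ((φ * W) * l) := by
    have : (1 - ε / 16) * W * ((1 - ε / 16) * (φ * l)) - ε / 16 * ((φ * W) * l) -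
        ε / 16 * ((φ * W) * l) -
        (1 - ε / 4) * ((φ * W) * l) = (ε ^ 2 / 256) * ((φ * W) * l) := by ring
    have h2 : 0 ≤ (ε ^ 2 / 256) * ((φ * W) * l) := by positivity
    linarith
  linarith

theorem v_K {W W₁ l φ : ℝ} (hε4 : ε ≤ 1 / 4) (hW : 0 < W) (hW₁ : 0 < W₁) (hl : 0 < l)
    (hφ : 0 < φ) :
    W / W₁ * (1 / ((1 - ε / 4) * ((φ * W) * l))) = 1 / ((1 - ε / 4) * ((φ * W₁) * l)) := by
  have : (1 - ε / 4) ≠ 0 := by linarith
  field_simp

end

/-- covering property at `X` with a count: primes in `(w, X^δ]`, at most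
`κ₀ log X loglog X ∏_{p ≤ w} (1 - 1/p)` classes, at least `(B - A) e^{-τ}` covered integers
in `(A, B]` -/
def CovK (w X δ κ₀ τ : ℝ) : Prop :=
  ∀ (κ : Type) [Fintype κ] [DecidableEq κ],
    (Fintype.card κ : ℝ) ≤ κ₀ * (Real.log X * Real.log (Real.log X) * WW w) →
    ∀ (res : ℕ → κ → ℤ),
    (∀ p : ℕ, p.Prime → w < p → (p : ℝ) ≤ X ^ δ →
      ∀ k l, k ≠ l → ¬ ((p : ℤ) ∣ res p k - res p l)) →
    ∀ A B : ℤ, X ^ (1 - δ) ≤ (B : ℝ) - A →
    ((B : ℝ) - A) * Real.exp (-τ) ≤ (((Ioc A B).filter (fun x : ℤ => ∀ k : κ,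
      ∃ p : ℕ, p.Prime ∧ w < p ∧ (p : ℝ) ≤ X ^ δ ∧ (p : ℤ) ∣ x - res p k)).card : ℝ)

end Pool.Agent.Y831.RC
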